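import Mathlib
import Pool.Agent.V1185.PB.Core
import Pool.Agent.V1185.PB.Cdf

/-!
# MP_ec0ea5_pr, Q1: solutions of the power-bias fixed point equation are unique up to scaling
-/

open MeasureTheory Set Filter Topology
open scoped ENNReal

namespace Pool.Agent.Results.MP_ec0ea5_pr.UniqueUpToScaling

open Pool.Agent.V1185.PB

/-- The law `Beta(w,1)`: density `w v^(w-1)` on `(0,1)`. -/
noncomputable def betaLaw (w : ℝ) : Measure ℝ :=
  (volume.restrict (Ioo (0:ℝ) 1)).withDensity (fun v => ENNReal.ofReal (w * v ^ (w - 1)))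

/-- The `k`-power-biased law of `μ`: `E f = E[X^k f(X)] / E[X^k]`. -/
noncomputable def powerBias (μ : Measure ℝ) (k : ℕ) : Measure ℝ :=
  μ.withDensity (fun x => ENNReal.ofReal (x ^ k / ∫ y, y ^ k ∂μ))

/-- The `ψ`-power-biased law of `μ`: the mixture of the `k`-power-biased laws with weights `ψ k`. -/
noncomputable def psiBias (ψ : ℕ → ℝ) (μ : Measure ℝ) : Measure ℝ :=
  Measure.sum (fun k => ENNReal.ofReal (ψ k) • powerBias μ k)

/-- `μ` is a solution of the fixed point equation for `(w, ψ)`: it is the law of a positive random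
variable `X` with `E X^k < ∞` whenever `ψ k > 0`, and `X` has the law of `V_w X^(ψ)` with `V_w`
of law `Beta(w,1)` independent of `X^(ψ)`. -/
structure IsSolution (w : ℝ) (ψ : ℕ → ℝ) (μ : Measure ℝ) : Prop where
  prob : IsProbabilityMeasure μ
  pos : μ (Iic 0) = 0
  moments : ∀ k, 0 < ψ k → Integrable (fun x => x ^ k) μ
  fixed : μ = ((betaLaw w).prod (psiBias ψ μ)).map (fun p => p.1 * p.2)

/-! ### The Beta law -/

theorem betaLaw_Iic {w : ℝ} (hw : 0 < w) {t : ℝ} (ht : t ≤ 0) :
    betaLaw w (Iic (Real.exp t)) = ENNReal.ofReal (Real.exp (w * t)) := by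
  have h1 : Real.exp t ≤ 1 := Real.exp_le_one_iff.2 ht
  have hset : volume.restrict (Iic (Real.exp t) ∩ Ioo 0 1) = volume.restrict (Ioc 0 (Real.exp t)) := by
    apply Measure.restrict_congr_set
    have : Ioo 0 (Real.exp t) ⊆ Iic (Real.exp t) ∩ Ioo 0 1 := fun x hx =>
      ⟨hx.2.le, hx.1, hx.2.trans_le h1⟩
    have h2 : Iic (Real.exp t) ∩ Ioo 0 1 ⊆ Ioc 0 (Real.exp t) := fun x hx => ⟨hx.2.1, hx.1⟩
    have h3 : Ioo 0 (Real.exp t) =ᵐ[volume] Ioc 0 (Real.exp t) := Ioo_ae_eq_Ioc
    apply EventuallyLE.antisymm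
    · exact h2.eventuallyLE
    · exact h3.symm.le.trans this.eventuallyLE
  rw [betaLaw, withDensity_apply _ measurableSet_Iic, Measure.restrict_restrict measurableSet_Iic,
    hset, ← ofReal_integral_eq_lintegral_ofReal]
  · congr 1
    rw [← intervalIntegral.integral_of_le (Real.exp_pos t).le, intervalIntegral.integral_const_mul,
      integral_rpow (Or.inl (by linarith))]
    rw [sub_add_cancel, Real.zero_rpow hw.ne', sub_zero, mul_div_cancel₀ _ hw.ne', ← Real.exp_mul,
      mul_comm]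
  · have := (intervalIntegral.intervalIntegrable_rpow' (a := 0) (b := Real.exp t)
      (show -1 < w - 1 by linarith)).const_mul w
    rwa [intervalIntegrable_iff_integrableOn_Ioc_of_le (Real.exp_pos t).le] at this
  · filter_upwards [ae_restrict_mem measurableSet_Ioc] with x hx
    have := Real.rpow_nonneg hx.1.le (w - 1)
    positivity

theorem betaLaw_univ {w : ℝ} (hw : 0 < w) : betaLaw w univ = 1 := by
  have h := betaLaw_Iic hw le_rfl
  rw [mul_zero, Real.exp_zero, ENNReal.ofReal_one] at h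
  rw [← h, betaLaw, withDensity_apply _ measurableSet_Iic, withDensity_apply _ MeasurableSet.univ,
    Measure.restrict_restrict measurableSet_Iic, Measure.restrict_restrict MeasurableSet.univ]
  have h1 : Iic (1:ℝ) ∩ Ioo 0 1 = Ioo 0 1 := inter_eq_right.2 fun x hx => hx.2.le
  rw [h1, univ_inter]

theorem betaLaw_Iic' {w : ℝ} (hw : 0 < w) (t : ℝ) :
    betaLaw w (Iic (Real.exp t)) = ENNReal.ofReal (Real.exp (w * min 0 t)) := by
  rcases le_total t 0 with h | h
  · rw [min_eq_right h, betaLaw_Iic hw h]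
  · rw [min_eq_left h, mul_zero, Real.exp_zero, ENNReal.ofReal_one]
    apply le_antisymm
    · rw [← betaLaw_univ hw]
      exact measure_mono (subset_univ _)
    · have h2 := betaLaw_Iic hw le_rfl
      rw [mul_zero, Real.exp_zero, ENNReal.ofReal_one] at h2
      rw [← h2]
      exact measure_mono (Iic_subset_Iic.2 (by
        rw [← Real.exp_zero]; exact Real.exp_le_exp.2 h))

/-! ### The biased law -/

variable {w : ℝ} {ψ : ℕ → ℝ} {μ : Measure ℝ}

theorem IsSolution.ae_pos (h : IsSolution w ψ μ) : ∀ᵐ x ∂μ, 0 < x := by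
  rw [ae_iff]; convert h.pos using 2; ext x; simp

theorem IsSolution.mom_pos (h : IsSolution w ψ μ) (k : ℕ) (hk : 0 < ψ k) : 0 < ∫ y, y ^ k ∂μ := by
  have := h.prob
  have hnn : 0 ≤ᵐ[μ] fun y : ℝ => y ^ k := by
    filter_upwards [h.ae_pos] with x hx using (pow_pos hx k).le
  apply lt_of_le_of_ne (integral_nonneg_of_ae hnn)
  intro h0
  have h1 := (integral_eq_zero_iff_of_nonneg_ae hnn (h.moments k hk)).1 h0.symm
  obtain ⟨x, hx1, hx2⟩ := (h1.and h.ae_pos).exists
  exact absurd hx1 (pow_pos hx2 k).ne'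

theorem IsSolution.powerBias_univ (h : IsSolution w ψ μ) (k : ℕ) (hk : 0 < ψ k) :
    powerBias μ k univ = 1 := by
  have hm := h.mom_pos k hk
  rw [powerBias, withDensity_apply _ MeasurableSet.univ, Measure.restrict_univ,
    ← ofReal_integral_eq_lintegral_ofReal, integral_div, div_self hm.ne', ENNReal.ofReal_one]
  · exact (h.moments k hk).div_const _
  · filter_upwards [h.ae_pos] with x hx
    have := pow_pos hx k
    positivity

theorem psiBias_apply {s : Set ℝ} (hs : MeasurableSet s) :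
    psiBias ψ μ s = ∑' k, ENNReal.ofReal (ψ k) *
      ∫⁻ x in s, ENNReal.ofReal (x ^ k / ∫ y, y ^ k ∂μ) ∂μ := by
  rw [psiBias, Measure.sum_apply _ hs]
  refine tsum_congr fun k => ?_
  rw [Measure.smul_apply, smul_eq_mul, powerBias, withDensity_apply _ hs]

theorem IsSolution.prob_bias (h : IsSolution w ψ μ) (hψ : ∀ k, 0 ≤ ψ k) (hs : HasSum ψ 1) :
    IsProbabilityMeasure (psiBias ψ μ) := by
  constructor
  rw [psiBias, Measure.sum_apply _ MeasurableSet.univ]
  have : ∀ k, (ENNReal.ofReal (ψ k) • powerBias μ k) univ = ENNReal.ofReal (ψ k) := by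
    intro k
    rcases (hψ k).lt_or_eq with h1 | h1
    · rw [Measure.smul_apply, smul_eq_mul, h.powerBias_univ k h1, mul_one]
    · simp [← h1]
  simp_rw [this]
  rw [← ENNReal.ofReal_tsum_of_nonneg hψ hs.summable, hs.tsum_eq, ENNReal.ofReal_one]

theorem psiBias_ac : psiBias ψ μ ≪ μ := by
  apply Measure.absolutelyContinuous_sum_left
  intro k
  exact (withDensity_absolutelyContinuous _ _).smul_left _

theorem IsSolution.bias_pos (h : IsSolution w ψ μ) : ∀ᵐ x ∂(psiBias ψ μ), 0 < x :=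
  psiBias_ac.ae_le h.ae_pos

theorem IsSolution.law_apply (h : IsSolution w ψ μ) (hw : 0 < w) (hψ : ∀ k, 0 ≤ ψ k)
    (hs : HasSum ψ 1) {s : Set ℝ} (hms : MeasurableSet s) :
    μ s = ∫⁻ y, betaLaw w ((fun v => v * y) ⁻¹' s) ∂(psiBias ψ μ) := by
  have := h.prob_bias hψ hs
  have : IsProbabilityMeasure (betaLaw w) := ⟨betaLaw_univ hw⟩
  have hm : Measurable (fun p : ℝ × ℝ => p.1 * p.2) := measurable_fst.mul measurable_snd
  have h1 : μ s = (((betaLaw w).prod (psiBias ψ μ)).map (fun p => p.1 * p.2)) s := by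
    rw [← h.fixed]
  rw [h1, Measure.map_apply hm hms, Measure.prod_apply_symm (hm hms)]
  rfl

theorem IsSolution.no_atom (h : IsSolution w ψ μ) (hw : 0 < w) (hψ : ∀ k, 0 ≤ ψ k)
    (hs : HasSum ψ 1) (x : ℝ) : μ {x} = 0 := by
  rw [h.law_apply hw hψ hs (measurableSet_singleton x), lintegral_eq_zero_iff']
  · filter_upwards [h.bias_pos] with y hy
    have h1 : betaLaw w ≪ volume :=
      (withDensity_absolutelyContinuous _ _).trans Measure.absolutelyContinuous_restrict
    apply h1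
    have : (fun v => v * y) ⁻¹' {x} = {x / y} := by
      ext v
      simp only [mem_preimage, mem_singleton_iff]
      rw [eq_div_iff hy.ne']
    rw [this]
    exact Real.volume_singleton
  · have : IsProbabilityMeasure (betaLaw w) := ⟨betaLaw_univ hw⟩
    have hm : Measurable (fun p : ℝ × ℝ => p.1 * p.2) := measurable_fst.mul measurable_snd
    exact (measurable_measure_prodMk_right (hm (measurableSet_singleton x))).aemeasurable

theorem IsSolution.cdf (h : IsSolution w ψ μ) (hw : 0 < w) (hψ : ∀ k, 0 ≤ ψ k)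
    (hs : HasSum ψ 1) (s : ℝ) :
    μ.real (Iic (Real.exp s)) =
      ∫ y, Real.exp (w * min 0 (s - Real.log y)) ∂(psiBias ψ μ) := by
  rw [measureReal_def, h.law_apply hw hψ hs measurableSet_Iic, integral_eq_lintegral_of_nonneg_ae]
  · congr 1
    apply lintegral_congr_ae
    filter_upwards [h.bias_pos] with y hy
    rw [← betaLaw_Iic' hw]
    congr 1
    ext v
    simp only [mem_preimage, mem_Iic]
    rw [Real.exp_sub, Real.exp_log hy, le_div_iff₀ hy]
  · exact Eventually.of_forall fun y => (Real.exp_pos _).le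
  · exact (by fun_prop : Measurable fun y : ℝ =>
      Real.exp (w * min 0 (s - Real.log y))).aestronglyMeasurable

/-! ### The quantile function -/

theorem volume_Iic_inter {c : ℝ} (_h0 : 0 < c) (h1 : c ≤ 1) :
    volume (Iic c ∩ Ioo 0 1) = ENNReal.ofReal c := by
  apply le_antisymm
  · calc volume (Iic c ∩ Ioo 0 1) ≤ volume (Ioc 0 c) :=
        measure_mono (show Iic c ∩ Ioo 0 1 ⊆ Ioc 0 c from fun x hx => ⟨hx.2.1, hx.1⟩)
      _ = ENNReal.ofReal c := by rw [Real.volume_Ioc, sub_zero]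
  · calc ENNReal.ofReal c = volume (Ioo 0 c) := by rw [Real.volume_Ioo, sub_zero]
      _ ≤ _ := measure_mono (show Ioo 0 c ⊆ Iic c ∩ Ioo 0 1 from
        fun x hx => ⟨hx.2.le, hx.1, hx.2.trans_le h1⟩)

theorem aem_of {g : ℝ → ℝ} (hg : ContinuousOn g (Ioo 0 1)) :
    AEMeasurable (fun u => Real.exp (g u)) (volume.restrict (Ioo (0:ℝ) 1)) :=
  (Real.continuous_exp.comp_continuousOn hg).aemeasurable measurableSet_Ioo

theorem map_eq {μ : Measure ℝ} [IsProbabilityMeasure μ] (hpos : μ (Iic 0) = 0) {g : ℝ → ℝ}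
    (hg : ContinuousOn g (Ioo 0 1)) (L : ℝ → ℝ) (hL : ∀ s, μ.real (Iic (Real.exp s)) = L s)
    (hL0 : ∀ s, 0 < L s) (hiff : ∀ u ∈ Ioo (0:ℝ) 1, ∀ s, g u ≤ s ↔ u ≤ L s) :
    (volume.restrict (Ioo (0:ℝ) 1)).map (fun u => Real.exp (g u)) = μ := by
  have hfin : IsFiniteMeasure ((volume.restrict (Ioo (0:ℝ) 1)).map (fun u => Real.exp (g u))) :=
    Measure.isFiniteMeasure_map _ _
  apply Measure.ext_of_Iic
  intro x
  rw [Measure.map_apply_of_aemeasurable (aem_of hg) measurableSet_Iic,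
    Measure.restrict_apply' measurableSet_Ioo]
  rcases le_or_gt x 0 with hx | hx
  · have h1 : μ (Iic x) = 0 := measure_mono_null (Iic_subset_Iic.2 hx) hpos
    rw [h1]
    convert measure_empty (μ := volume (α := ℝ)) using 2
    ext u
    simp only [mem_inter_iff, mem_preimage, mem_Iic, mem_empty_iff_false, iff_false, not_and]
    intro h
    exact absurd (h.trans hx) (not_le.2 (Real.exp_pos _))
  · obtain ⟨s, rfl⟩ : ∃ s, Real.exp s = x := ⟨Real.log x, Real.exp_log hx⟩
    have h1 : (fun u => Real.exp (g u)) ⁻¹' Iic (Real.exp s) ∩ Ioo 0 1 = Iic (L s) ∩ Ioo 0 1 := by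
      ext u
      simp only [mem_inter_iff, mem_preimage, mem_Iic, Real.exp_le_exp]
      constructor
      · rintro ⟨h2, h3⟩; exact ⟨(hiff u h3 s).1 h2, h3⟩
      · rintro ⟨h2, h3⟩; exact ⟨(hiff u h3 s).2 h2, h3⟩
    have h2 : L s ≤ 1 := by rw [← hL s]; exact measureReal_le_one
    rw [h1, volume_Iic_inter (hL0 s) h2, ← hL s]
    exact ENNReal.ofReal_toReal (measure_ne_top _ _)

theorem IsSolution.exists_quant (h : IsSolution w ψ μ) (hw : 0 < w) (hψ : ∀ k, 0 ≤ ψ k)
    (hs : HasSum ψ 1) : ∃ (g : ℝ → ℝ) (m : ℕ → ℝ), Quant w ψ g m ∧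
      (volume.restrict (Ioo (0:ℝ) 1)).map (fun u => Real.exp (g u)) = μ := by
  have hP := h.prob
  have hPβ := h.prob_bias hψ hs
  set β := psiBias ψ μ with hβ
  have hat : ∀ x, β {x} = 0 := fun x => psiBias_ac (h.no_atom hw hψ hs x)
  have hposβ : ∀ᵐ y ∂β, 0 < y := h.bias_pos
  obtain ⟨g, hg1, hg2, hg3, hg4⟩ := exists_inv (w := w) hw hposβ hat
  have hgc : ContinuousOn g (Ioo 0 1) := fun u hu => (hg3 u hu).continuousAt.continuousWithinAt
  have hmap := map_eq (μ := μ) h.pos hgc (LL w β) (fun s => h.cdf hw hψ hs s)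
    (fun s => LL_pos hw.le s) hg4
  have haem := aem_of hgc
  set m : ℕ → ℝ := fun k => ∫ y, y ^ k ∂μ with hm
  have hpow : ∀ (k : ℕ) (v : ℝ), Real.exp (g v) ^ k = Real.exp (k * g v) := fun k v =>
    (Real.exp_nat_mul _ _).symm
  have hmpos : ∀ k, 0 < ψ k → 0 < m k := fun k hk => h.mom_pos k hk
  have hint : ∀ k, 0 < ψ k → IntegrableOn (fun u => Real.exp (k * g u)) (Ioo 0 1) := by
    intro k hk
    have h1 := h.moments k hk
    rw [← hmap, integrable_map_measure (by fun_prop) haem] at h1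
    refine h1.congr (Eventually.of_forall fun u => ?_)
    simp only [Function.comp]
    exact hpow k u
  have hmval : ∀ k, 0 < ψ k → ∫ u in Ioo 0 1, Real.exp (k * g u) = m k := by
    intro k hk
    simp only [hm]
    rw [← hmap, integral_map haem (by fun_prop)]
    refine integral_congr_ae (Eventually.of_forall fun u => ?_)
    simp only
    exact (hpow k u).symm
  -- nonnegativity
  have hnn : ∀ k v, 0 ≤ ψ k * (Real.exp (k * g v) / m k) := by
    intro k v
    rcases (hψ k).lt_or_eq with hk | hk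
    · have := hmpos k hk
      positivity
    · simp [← hk]
  set T : ℝ → ℝ≥0∞ := fun v => ∑' k, ENNReal.ofReal (ψ k * (Real.exp (k * g v) / m k)) with hT
  have hTk : ∀ k : ℕ, AEMeasurable (fun v => ENNReal.ofReal (ψ k * (Real.exp (k * g v) / m k)))
      (volume.restrict (Ioo 0 1)) := by
    intro k
    apply AEMeasurable.ennreal_ofReal
    apply AEMeasurable.const_mul
    apply AEMeasurable.div_const
    exact (Real.continuous_exp.comp_continuousOn (continuousOn_const.mul hgc)).aemeasurable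
      measurableSet_Ioo
  have hsub : ∀ u ∈ Ioo (0:ℝ) 1, Ioc 0 u ⊆ Ioo 0 1 := fun u hu x hx => ⟨hx.1, hx.2.trans_lt hu.2⟩
  have hTm : ∀ u ∈ Ioo (0:ℝ) 1, AEMeasurable T (volume.restrict (Ioc 0 u)) := fun u hu =>
    (AEMeasurable.tsum fun k => hTk k).mono_measure
      (Measure.restrict_mono (hsub u hu) le_rfl)
  have hβT : ∀ u ∈ Ioo (0:ℝ) 1, β (Iic (Real.exp (g u))) = ∫⁻ v in Ioc 0 u, T v := by
    intro u hu
    rw [hβ, psiBias_apply measurableSet_Iic, hT, lintegral_tsum (fun k =>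
      (hTk k).mono_measure (Measure.restrict_mono (hsub u hu) le_rfl))]
    refine tsum_congr fun k => ?_
    have e1 : ∫⁻ x in Iic (Real.exp (g u)), ENNReal.ofReal (x ^ k / ∫ y, y ^ k ∂μ) ∂μ =
        ∫⁻ v in Ioc 0 u, ENNReal.ofReal (Real.exp (k * g v) / m k) := by
      change ∫⁻ x in Iic (Real.exp (g u)), ENNReal.ofReal (x ^ k / m k) ∂μ = _
      rw [← lintegral_indicator measurableSet_Iic, ← hmap, lintegral_map' (by
        apply Measurable.aemeasurable
        exact (by fun_prop : Measurable fun x : ℝ => ENNReal.ofReal (x ^ k / m k)).indicator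
          measurableSet_Iic) haem]
      have e2 : ∫⁻ v in Ioc 0 u, ENNReal.ofReal (Real.exp (k * g v) / m k) =
          ∫⁻ v in Ioo 0 1, (Iic u).indicator
            (fun v => ENNReal.ofReal (Real.exp (k * g v) / m k)) v := by
        rw [lintegral_indicator measurableSet_Iic, Measure.restrict_restrict measurableSet_Iic]
        congr 2
        ext x
        simp only [mem_Ioc, mem_inter_iff, mem_Iic, mem_Ioo]
        constructor
        · rintro ⟨a, b⟩; exact ⟨b, a, b.trans_lt hu.2⟩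
        · rintro ⟨a, b, _⟩; exact ⟨b, a⟩
      rw [e2]
      apply setLIntegral_congr_fun measurableSet_Ioo
      intro v hv
      simp only [indicator, mem_Iic, Real.exp_le_exp, hg2.le_iff_le hv hu, hpow]
    rw [e1, ← lintegral_const_mul' _ _ ENNReal.ofReal_ne_top]
    refine lintegral_congr fun v => ?_
    rw [ENNReal.ofReal_mul (hψ k)]
  have hTmono : ∀ u ∈ Ioo (0:ℝ) 1, ∀ v ∈ Ioo (0:ℝ) 1, u ≤ v → T u ≤ T v := by
    intro u hu v hv huv
    apply ENNReal.tsum_le_tsum
    intro k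
    apply ENNReal.ofReal_le_ofReal
    rcases (hψ k).lt_or_eq with hk | hk
    · have h1 := hmpos k hk
      have h2 : g u ≤ g v := hg2.monotoneOn hu hv huv
      gcongr
    · simp [← hk]
  have hTfin : ∀ u ∈ Ioo (0:ℝ) 1, T u ≠ ∞ := by
    intro u hu
    obtain ⟨u', hu1, hu2⟩ := exists_between hu.2
    have hu' : u' ∈ Ioo (0:ℝ) 1 := ⟨hu.1.trans hu1, hu2⟩
    have h1 : ∫⁻ v in Ioc 0 u', T v ≠ ∞ := by
      rw [← hβT u' hu']; exact measure_ne_top _ _
    have h2 := ae_lt_top' (hTm u' hu') h1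
    have h3 : ∀ᵐ v ∂(volume.restrict (Ioo u u')), T v < ∞ :=
      ae_mono (Measure.restrict_mono (show Ioo u u' ⊆ Ioc 0 u' from
        fun x hx => ⟨hu.1.trans hx.1, hx.2.le⟩) le_rfl) h2
    have hne : (ae (volume.restrict (Ioo u u'))).NeBot := by
      rw [ae_neBot, Ne, Measure.restrict_eq_zero, Real.volume_Ioo]
      simp [hu1]
    obtain ⟨v, hv1, hv2⟩ := (h3.and (ae_restrict_mem measurableSet_Ioo)).exists
    exact ((hTmono u hu v ⟨hu.1.trans hv2.1, hv2.2.trans hu2⟩ hv2.1.le).trans_lt hv1).ne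
  have hsumm : ∀ u ∈ Ioo (0:ℝ) 1, Summable (fun k : ℕ => ψ k * (Real.exp (k * g u) / m k)) := by
    intro u hu
    have h1 := ENNReal.summable_toReal (hTfin u hu)
    refine h1.congr fun k => ?_
    rw [ENNReal.toReal_ofReal (hnn k u)]
  have hTA : ∀ u ∈ Ioo (0:ℝ) 1, T u = ENNReal.ofReal (AA ψ g m u) := by
    intro u hu
    rw [AA, ENNReal.ofReal_tsum_of_nonneg (fun k => hnn k u) (hsumm u hu)]
  have hAnn : ∀ u, 0 ≤ AA ψ g m u := fun u => tsum_nonneg fun k => hnn k u
  have hβA : ∀ u ∈ Ioo (0:ℝ) 1, β.real (Iic (Real.exp (g u))) = ∫ v in (0:ℝ)..u, AA ψ g m v := by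
    intro u hu
    have haeq : T =ᵐ[volume.restrict (Ioc 0 u)] fun v => ENNReal.ofReal (AA ψ g m v) := by
      filter_upwards [ae_restrict_mem measurableSet_Ioc] with v hv using hTA v (hsub u hu hv)
    have hAm : AEMeasurable (AA ψ g m) (volume.restrict (Ioc 0 u)) := by
      have h1 := (hTm u hu).ennreal_toReal
      refine h1.congr ?_
      filter_upwards [haeq] with v hv
      rw [hv, ENNReal.toReal_ofReal (hAnn v)]
    rw [intervalIntegral.integral_of_le hu.1.le,
      integral_eq_lintegral_of_nonneg_ae (Eventually.of_forall hAnn) hAm.aestronglyMeasurable,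
      measureReal_def, hβT u hu, lintegral_congr_ae haeq]
  have hDG : ∀ u ∈ Ioo (0:ℝ) 1, DD ψ g m u = GG w β (g u) := by
    intro u hu
    have h1 := LL_eq (w := w) hw.le hposβ (g u)
    rw [hg1 u hu, hβA u hu] at h1
    rw [DD]
    linarith
  refine ⟨g, m, ⟨hg2.monotoneOn, hgc, hmpos, hint, hmval, hsumm, ?_, ?_⟩, hmap⟩
  · intro u hu
    rw [hDG u hu]
    exact GG_pos hw.le _ (by rw [hg1 u hu]; exact hu.2)
  · intro u hu
    rw [hDG u hu]
    exact hg3 u hu

/-- **Q1 of MP_ec0ea5_pr, proved.** For every `w > 0` and every probability distribution `ψ` on the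
positive integers, any two solutions of the power-bias fixed point equation are scaled versions of
each other. -/
theorem result (w : ℝ) (hw : 0 < w) (ψ : ℕ → ℝ) (hψ0 : ψ 0 = 0) (hψ : ∀ k, 0 ≤ ψ k)
    (hsum : HasSum ψ 1) (μ ν : Measure ℝ) (hμ : IsSolution w ψ μ) (hν : IsSolution w ψ ν) :
    ∃ c : ℝ, 0 < c ∧ ν = μ.map (fun x => c * x) := by
  obtain ⟨g, m, hq, hmap⟩ := hμ.exists_quant hw hψ hsum
  obtain ⟨g', m', hq', hmap'⟩ := hν.exists_quant hw hψ hsum
  obtain ⟨c, hc⟩ := core hw hq hq' hψ hψ0 hsum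
  refine ⟨Real.exp c, Real.exp_pos c, ?_⟩
  rw [← hmap', ← hmap, AEMeasurable.map_map_of_aemeasurable (by fun_prop) (aem_of hq.cont)]
  apply Measure.map_congr
  filter_upwards [ae_restrict_mem measurableSet_Ioo] with u hu
  simp only [Function.comp]
  rw [hc u hu, Real.exp_add, mul_comm]

end Pool.Agent.Results.MP_ec0ea5_pr.UniqueUpToScaling
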